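import Pool.Agent.Lib.MP_b64830.Defs
import Pool.Agent.Lib.MP_b64830.Cert34

namespace Pool.Agent.Results.MP_b64830_ag.RminLeThree

open Pool.Agent.Lib.MP_b64830

/-- The Betti table of the 4-uple embedding of projective 3-space differs between characteristic 2
and characteristic 0 (in homological degrees 13 and 14 and internal degree 15), so that
`rMin ≤ 3`. -/
theorem result :
    (∀ (k K : Type) [Field k] [CharP k 2] [Field K] [CharZero K],
      betti K 3 4 13 15 < betti k 3 4 13 15 ∧ betti K 3 4 14 15 < betti k 3 4 14 15) ∧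
    CharDependent 3 4 ∧ rMin ≤ 3 := by
  have h : CharDependent 3 4 := by
    refine ⟨ZMod 2, ℚ, inferInstance, inferInstance, ?_, 13, 15, ?_⟩
    · rw [ZMod.ringChar_zmod_n, ringChar.eq_zero]
      norm_num
    · exact (betti_lt_34 (ZMod 2) ℚ).1.ne'
  refine ⟨fun k K _ _ _ _ => betti_lt_34 k K, h, ?_⟩
  exact Nat.sInf_le ⟨by norm_num, 4, by norm_num, h⟩

end Pool.Agent.Results.MP_b64830_ag.RminLeThree
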